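import Mathlib
import Pool.Agent.H77.TO.Cnt
import Pool.Agent.H77.TO.Stm

/-!
# The strong law of large numbers for blocks of digits
-/

set_option autoImplicit false

namespace Pool.Agent.H94.TO

open Finset MeasureTheory Filter Topology Pool.Agent.W66L Pool.Agent.H77.TO

/-- residues modulo smaller powers -/
theorem dsum_mod (b : ℕ) [NeZero b] (d : ℕ → Fin b) {l M : ℕ} (h : l ≤ M) :
    dsum b M d % b ^ l = dsum b l d := by
  induction M, h using Nat.le_induction with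
  | base => exact Nat.mod_eq_of_lt (dsum_lt b l d)
  | succ M hM ih => rw [← ih, ← dsum_compat b M d, Nat.mod_mod_of_dvd _ (pow_dvd_pow b hM)]

theorem measure_mem (b : ℕ) [NeZero b] (n : ℕ) (S : Finset ℕ) (hS : ∀ s ∈ S, s < b ^ n) :
    (digitMeasure b).real {x | dsum b n x ∈ S} = (S.card : ℝ) / b ^ n := by
  have hfull := full_digits b
  have e : {x : ℕ → Fin b | dsum b n x ∈ S} = ⋃ a ∈ S, {x | dsum b n x = a} := by
    ext x; simp
  rw [e, measureReal_biUnion_finset]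
  · rw [sum_congr rfl (g := fun _ => (1 : ℝ) / b ^ n)]
    · rw [sum_const, nsmul_eq_mul, mul_one_div]
    · intro a ha
      rw [hfull.unif n a (hS a ha), probReal_univ]
  · intro a _ b _ hab
    rw [Function.onFun, Set.disjoint_left]
    intro x hx hx'
    exact hab (hx.symm.trans hx')
  · intro a _
    exact (hfull.meas n) (MeasurableSet.of_discrete (s := {a}))

theorem fib (b : ℕ) (hb : 2 ≤ b) {l M : ℕ} (h : l ≤ M) {u : ℕ} (hu : u < b ^ l) :
    (((range (b ^ M)).filter (fun s => s % b ^ l = u)).card : ℝ) = (b : ℝ) ^ M / b ^ l := by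
  have e1 : b ^ M = b ^ l * b ^ (M - l) := by
    rw [← pow_add]; congr 1; omega
  have e2 := card_mod (b ^ l) (fun t => t = u) (b ^ (M - l))
  rw [← e1] at e2
  have e3 : ((range (b ^ l)).filter (fun t => t = u)).card = 1 := by
    rw [filter_eq', if_pos (mem_range.2 hu), card_singleton]
  rw [e3, mul_one] at e2
  rw [e2]
  have hb0 : (0 : ℝ) < b := by exact_mod_cast (by omega : 0 < b)
  push_cast
  rw [eq_div_iff (by positivity), ← pow_add]
  congr 1
  omega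

section

variable (b : ℕ) (m : ℕ → ℕ) (X : ℕ → ℕ → ℝ) (j0 : ℕ)

/-- conditional mean -/
noncomputable def mu (j u : ℕ) : ℝ :=
  (b : ℝ) ^ m j / b ^ m (j + 1) *
    ∑ s ∈ (range (b ^ m (j + 1))).filter (fun s => s % b ^ m j = u), X j s

/-- centred variable -/
noncomputable def Z (j s : ℕ) : ℝ := X j s - mu b m X j (s % b ^ m j)

/-- centred sums -/
noncomputable def W (J s : ℕ) : ℝ := ∑ j ∈ Ico j0 J, Z b m X j (s % b ^ m (j + 1))

theorem Z_sum (hb : 2 ≤ b) (hm : Monotone m) (j u : ℕ) (hu : u < b ^ m j) :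
    ∑ s ∈ (range (b ^ m (j + 1))).filter (fun s => s % b ^ m j = u), Z b m X j s = 0 := by
  have hb0 : (0 : ℝ) < b := by exact_mod_cast (by omega : 0 < b)
  have e : ∑ s ∈ (range (b ^ m (j + 1))).filter (fun s => s % b ^ m j = u), Z b m X j s =
      ∑ s ∈ (range (b ^ m (j + 1))).filter (fun s => s % b ^ m j = u), (X j s - mu b m X j u) :=
    sum_congr rfl fun s hs => by
      unfold Z; rw [(mem_filter.1 hs).2]
  rw [e, sum_sub_distrib, sum_const, nsmul_eq_mul, fib b hb (hm (Nat.le_succ j)) hu]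
  unfold mu
  field_simp
  ring

theorem Z_sq (hb : 2 ≤ b) (hm : Monotone m) (j u : ℕ) (hu : u < b ^ m j) :
    ∑ s ∈ (range (b ^ m (j + 1))).filter (fun s => s % b ^ m j = u), (Z b m X j s) ^ 2 ≤
    ∑ s ∈ (range (b ^ m (j + 1))).filter (fun s => s % b ^ m j = u), (X j s) ^ 2 := by
  have hb0 : (0 : ℝ) < b := by exact_mod_cast (by omega : 0 < b)
  have e : ∑ s ∈ (range (b ^ m (j + 1))).filter (fun s => s % b ^ m j = u), (Z b m X j s) ^ 2 =
      ∑ s ∈ (range (b ^ m (j + 1))).filter (fun s => s % b ^ m j = u),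
        ((X j s) ^ 2 - mu b m X j u * Z b m X j s - mu b m X j u * X j s) :=
    sum_congr rfl fun s hs => by
      unfold Z; rw [(mem_filter.1 hs).2]; ring
  rw [e, sum_sub_distrib, sum_sub_distrib, ← mul_sum, ← mul_sum, Z_sum b m X hb hm j u hu]
  have h1 : 0 ≤ mu b m X j u *
      ∑ s ∈ (range (b ^ m (j + 1))).filter (fun s => s % b ^ m j = u), X j s := by
    unfold mu
    rw [mul_assoc, ← sq]
    positivity
  linarith

theorem W_mod (hm : Monotone m) (J s : ℕ) : W b m X j0 J (s % b ^ m J) = W b m X j0 J s := by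
  unfold W
  refine sum_congr rfl fun j hj => ?_
  rw [mem_Ico] at hj
  rw [Nat.mod_mod_of_dvd _ (pow_dvd_pow b (hm (by omega : j + 1 ≤ J)))]

theorem V_le (hb : 2 ≤ b) (hm : Monotone m) {C : ℝ}
    (hX : ∀ j, j0 ≤ j → ∀ u, u < b ^ m j →
      ∑ s ∈ (range (b ^ m (j + 1))).filter (fun s => s % b ^ m j = u), (X j s) ^ 2 ≤
        C * (b : ℝ) ^ m (j + 1) / b ^ m j) (J : ℕ) (hJ : j0 ≤ J) :
    ∑ s ∈ range (b ^ m J), (W b m X j0 J s) ^ 2 ≤ C * (J - j0) * (b : ℝ) ^ m J := by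
  have hb0 : (0 : ℝ) < b := by exact_mod_cast (by omega : 0 < b)
  induction J, hJ using Nat.le_induction with
  | base => simp [W]
  | succ J hJ ih =>
    have hmaps : ∀ s ∈ range (b ^ m (J + 1)), s % b ^ m J ∈ range (b ^ m J) := fun s _ =>
      mem_range.2 (Nat.mod_lt _ (by positivity))
    rw [← sum_fiberwise_of_maps_to hmaps]
    have h1 : ∀ u ∈ range (b ^ m J),
        ∑ s ∈ (range (b ^ m (J + 1))).filter (fun s => s % b ^ m J = u), (W b m X j0 (J + 1) s) ^ 2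
        ≤ (b : ℝ) ^ m (J + 1) / b ^ m J * (W b m X j0 J u) ^ 2 + C * (b : ℝ) ^ m (J + 1) / b ^ m J := by
      intro u hu
      rw [mem_range] at hu
      have e : ∑ s ∈ (range (b ^ m (J + 1))).filter (fun s => s % b ^ m J = u),
          (W b m X j0 (J + 1) s) ^ 2 =
          ∑ s ∈ (range (b ^ m (J + 1))).filter (fun s => s % b ^ m J = u),
          ((W b m X j0 J u) ^ 2 + 2 * W b m X j0 J u * Z b m X J s + (Z b m X J s) ^ 2) := by
        refine sum_congr rfl fun s hs => ?_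
        rw [mem_filter, mem_range] at hs
        have e1 : W b m X j0 (J + 1) s = W b m X j0 J s + Z b m X J s := by
          unfold W
          rw [sum_Ico_succ_top hJ, Nat.mod_eq_of_lt hs.1]
        rw [e1, ← W_mod b m X j0 hm J s, hs.2]
        ring
      rw [e, sum_add_distrib, sum_add_distrib, sum_const, nsmul_eq_mul, ← mul_sum,
        Z_sum b m X hb hm J u hu, fib b hb (hm (Nat.le_succ J)) hu]
      have h2 := (Z_sq b m X hb hm J u hu).trans (hX J hJ u hu)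
      linarith
    refine (sum_le_sum h1).trans ?_
    rw [sum_add_distrib, ← mul_sum, sum_const, card_range, nsmul_eq_mul]
    have h3 : (b : ℝ) ^ m (J + 1) / b ^ m J * ∑ s ∈ range (b ^ m J), (W b m X j0 J s) ^ 2 ≤
        (b : ℝ) ^ m (J + 1) / b ^ m J * (C * (J - j0) * (b : ℝ) ^ m J) :=
      mul_le_mul_of_nonneg_left ih (by positivity)
    refine (add_le_add_left h3 _).trans (le_of_eq ?_)
    push_cast
    field_simp
    ring

theorem cheb [NeZero b] (hb : 2 ≤ b) (hm : Monotone m) {C ε : ℝ} (hC : 0 < C) (hε : 0 < ε)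
    (hX : ∀ j, j0 ≤ j → ∀ u, u < b ^ m j →
      ∑ s ∈ (range (b ^ m (j + 1))).filter (fun s => s % b ^ m j = u), (X j s) ^ 2 ≤
        C * (b : ℝ) ^ m (j + 1) / b ^ m j) (J : ℕ) (hJ : j0 ≤ J) (hJ1 : 1 ≤ J) :
    (digitMeasure b).real {x | ε * J ≤ |W b m X j0 J (dsum b (m J) x)|} ≤ C / ε ^ 2 / J := by
  classical
  have hb0 : (0 : ℝ) < b := by exact_mod_cast (by omega : 0 < b)
  have hJ0 : (0 : ℝ) < J := by exact_mod_cast hJ1
  obtain ⟨S, hS⟩ : ∃ S : Finset ℕ, S = (range (b ^ m J)).filter (fun s => ε * J ≤ |W b m X j0 J s|) :=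
    ⟨_, rfl⟩
  have e : {x : ℕ → Fin b | ε * J ≤ |W b m X j0 J (dsum b (m J) x)|} = {x | dsum b (m J) x ∈ S} := by
    ext x
    rw [Set.mem_ofPred_eq, Set.mem_ofPred_eq, hS, mem_filter, mem_range]
    exact ⟨fun h => ⟨dsum_lt b _ x, h⟩, fun h => h.2⟩
  rw [e, measure_mem b (m J) S (by
    intro s hs
    rw [hS, mem_filter, mem_range] at hs
    exact hs.1)]
  rw [div_le_iff₀ (by positivity)]
  have h1 : (S.card : ℝ) * (ε * J) ^ 2 ≤ C * J * (b : ℝ) ^ m J := by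
    calc (S.card : ℝ) * (ε * J) ^ 2 = ∑ s ∈ S, (ε * J) ^ 2 := by rw [sum_const, nsmul_eq_mul]
      _ ≤ ∑ s ∈ S, (W b m X j0 J s) ^ 2 := by
          refine sum_le_sum fun s hs => ?_
          rw [hS, mem_filter] at hs
          rw [← sq_abs (W b m X j0 J s)]
          exact pow_le_pow_left₀ (by positivity) hs.2 2
      _ ≤ ∑ s ∈ range (b ^ m J), (W b m X j0 J s) ^ 2 := by
          apply sum_le_sum_of_subset_of_nonneg
          · rw [hS]; exact filter_subset _ _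
          · intro s _ _; positivity
      _ ≤ C * (J - j0) * (b : ℝ) ^ m J := V_le b m X j0 hb hm hX J hJ
      _ ≤ C * J * (b : ℝ) ^ m J := by
          have : (0 : ℝ) ≤ j0 := Nat.cast_nonneg _
          gcongr
          linarith
  have h2 : C / ε ^ 2 / J * (b : ℝ) ^ m J = (C * J * (b : ℝ) ^ m J) / (ε * J) ^ 2 := by
    field_simp
  rw [h2, le_div_iff₀ (by positivity)]
  exact h1

end

/-- the strong law for blocks of digits -/
theorem slln : St_SLLN := by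
  intro b _ hb m hm X c C j0 hc hC hX0 hX
  have hb0 : (0 : ℝ) < b := by exact_mod_cast (by omega : 0 < b)
  have hX2 : ∀ j, j0 ≤ j → ∀ u, u < b ^ m j →
      ∑ s ∈ (range (b ^ m (j + 1))).filter (fun s => s % b ^ m j = u), (X j s) ^ 2 ≤
        C * (b : ℝ) ^ m (j + 1) / b ^ m j := fun j hj u hu => (hX j hj u hu).2.2
  have hcC : c ≤ C := by
    obtain ⟨h1, h2, -⟩ := hX j0 le_rfl 0 (by positivity)
    have h3 := h1.trans h2
    rw [div_le_div_iff_of_pos_right (by positivity)] at h3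
    exact le_of_mul_le_mul_right h3 (by positivity)
  obtain ⟨ε, hε⟩ : ∃ ε : ℝ, ε = c / 4 := ⟨_, rfl⟩
  have hε0 : 0 < ε := by rw [hε]; positivity
  have hmu : ∀ j, j0 ≤ j → ∀ u, u < b ^ m j → c ≤ mu b m X j u ∧ mu b m X j u ≤ C := by
    intro j hj u hu
    obtain ⟨h1, h2, -⟩ := hX j hj u hu
    unfold mu
    have q : (0 : ℝ) < (b : ℝ) ^ m j / b ^ m (j + 1) := by positivity
    constructor
    · calc c = (b : ℝ) ^ m j / b ^ m (j + 1) * (c * (b : ℝ) ^ m (j + 1) / b ^ m j) := by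
            field_simp
        _ ≤ _ := mul_le_mul_of_nonneg_left h1 q.le
    · calc _ ≤ (b : ℝ) ^ m j / b ^ m (j + 1) * (C * (b : ℝ) ^ m (j + 1) / b ^ m j) :=
            mul_le_mul_of_nonneg_left h2 q.le
        _ = C := by field_simp
  -- Borel-Cantelli along the squares
  have hBC : ∀ᵐ x ∂(digitMeasure b), ∀ᶠ i : ℕ in atTop,
      x ∉ {x | (j0 ≤ i ^ 2 ∧ 1 ≤ i) ∧
        ε * ((i ^ 2 : ℕ) : ℝ) ≤ |W b m X j0 (i ^ 2) (dsum b (m (i ^ 2)) x)|} := by
    apply ae_eventually_notMem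
    have hbd : ∀ i : ℕ, (digitMeasure b) {x | (j0 ≤ i ^ 2 ∧ 1 ≤ i) ∧
        ε * ((i ^ 2 : ℕ) : ℝ) ≤ |W b m X j0 (i ^ 2) (dsum b (m (i ^ 2)) x)|} ≤
        ENNReal.ofReal (C / ε ^ 2 * (1 / (i : ℝ) ^ 2)) := by
      intro i
      by_cases hi : j0 ≤ i ^ 2 ∧ 1 ≤ i
      · have h := cheb b m X j0 hb hm hC hε0 hX2 (i ^ 2) hi.1 (Nat.one_le_pow _ _ hi.2)
        rw [← ofReal_measureReal]
        apply ENNReal.ofReal_le_ofReal
        refine (measureReal_mono ?_).trans (h.trans (le_of_eq ?_))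
        · intro x hx
          exact hx.2
        · push_cast
          rw [mul_one_div]
      · have : {x | (j0 ≤ i ^ 2 ∧ 1 ≤ i) ∧
            ε * ((i ^ 2 : ℕ) : ℝ) ≤ |W b m X j0 (i ^ 2) (dsum b (m (i ^ 2)) x)|} = ∅ := by
          ext x
          simp only [Set.mem_ofPred_eq, Set.mem_empty_iff_false, iff_false]
          exact fun h => hi h.1
        rw [this, measure_empty]
        exact zero_le
    refine ne_top_of_le_ne_top ?_ (ENNReal.tsum_le_tsum hbd)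
    rw [← ENNReal.ofReal_tsum_of_nonneg]
    · exact ENNReal.ofReal_ne_top
    · intro i; positivity
    · exact (Real.summable_one_div_nat_pow.2 (by norm_num)).mul_left _
  filter_upwards [hBC] with x hx
  obtain ⟨Y, hY⟩ : ∃ Y : ℕ → ℝ, Y = fun j => X j (dsum b (m (j + 1)) x) := ⟨_, rfl⟩
  have hY0 : ∀ j, 0 ≤ Y j := fun j => by rw [hY]; exact hX0 j _
  have hdec : ∀ J, j0 ≤ J → ∑ j ∈ Ico j0 J, Y j =
      W b m X j0 J (dsum b (m J) x) + ∑ j ∈ Ico j0 J, mu b m X j (dsum b (m j) x) := by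
    intro J hJ
    unfold W
    rw [← sum_add_distrib]
    refine sum_congr rfl fun j hj => ?_
    rw [mem_Ico] at hj
    rw [dsum_mod b x (hm (by omega : j + 1 ≤ J))]
    unfold Z
    rw [dsum_mod b x (hm (Nat.le_succ j)), hY]
    ring
  have hmean : ∀ J, j0 ≤ J → c * (J - j0) ≤ ∑ j ∈ Ico j0 J, mu b m X j (dsum b (m j) x) ∧
      ∑ j ∈ Ico j0 J, mu b m X j (dsum b (m j) x) ≤ C * (J - j0) := by
    intro J hJ
    have hcard : ((Ico j0 J).card : ℝ) = J - j0 := by rw [Nat.card_Ico, Nat.cast_sub hJ]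
    constructor
    · calc c * (J - j0) = ∑ j ∈ Ico j0 J, c := by rw [sum_const, nsmul_eq_mul, hcard]; ring
        _ ≤ _ := sum_le_sum fun j hj => (hmu j (mem_Ico.1 hj).1 _ (dsum_lt b _ x)).1
    · calc _ ≤ ∑ j ∈ Ico j0 J, C :=
            sum_le_sum fun j hj => (hmu j (mem_Ico.1 hj).1 _ (dsum_lt b _ x)).2
        _ = C * (J - j0) := by rw [sum_const, nsmul_eq_mul, hcard]; ring
  obtain ⟨i0, hi0⟩ := eventually_atTop.1 hx
  obtain ⟨A, hA⟩ : ∃ A : ℝ, A = ∑ j ∈ range j0, Y j := ⟨_, rfl⟩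
  obtain ⟨i1, hi1⟩ := exists_nat_gt (A / C)
  have hA1 : A ≤ C * i1 := by
    rw [div_lt_iff₀ hC] at hi1
    linarith
  rw [eventually_atTop]
  refine ⟨(i0 + i1 + 4 * j0 + 8) ^ 2, fun J hJ => ?_⟩
  obtain ⟨i, hi⟩ : ∃ i, i = Nat.sqrt J := ⟨_, rfl⟩
  have hi_ge : i0 + i1 + 4 * j0 + 8 ≤ i := by rw [hi]; exact Nat.le_sqrt'.2 hJ
  have hlo : i ^ 2 ≤ J := by rw [hi]; exact Nat.sqrt_le' J
  have hup : J < (i + 1) ^ 2 := by rw [hi]; exact Nat.lt_succ_sqrt' J
  have hsq : ∀ k, i ≤ k → j0 ≤ k ^ 2 := fun k hk => by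
    calc j0 ≤ k := by omega
      _ ≤ k ^ 2 := Nat.le_self_pow (by norm_num) k
  have key : ∀ k, i ≤ k → |W b m X j0 (k ^ 2) (dsum b (m (k ^ 2)) x)| < ε * (k : ℝ) ^ 2 := by
    intro k hk
    have h1 := hi0 k (by omega)
    by_contra h2
    push Not at h2
    apply h1
    refine ⟨⟨hsq k hk, by omega⟩, ?_⟩
    push_cast
    exact h2
  have hJ1 : (i : ℝ) ^ 2 ≤ J := by exact_mod_cast hlo
  have hJ2 : (J : ℝ) ≤ ((i : ℝ) + 1) ^ 2 := by exact_mod_cast hup.le
  have hi2 : (i1 : ℝ) + 4 * j0 + 8 ≤ i := by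
    exact_mod_cast (by omega : i1 + 4 * j0 + 8 ≤ i)
  have hj0 : (0 : ℝ) ≤ j0 := Nat.cast_nonneg _
  have hi1' : (0 : ℝ) ≤ i1 := Nat.cast_nonneg _
  have hgoal : ∑ j ∈ range J, X j (dsum b (m (j + 1)) x) = ∑ j ∈ range J, Y j := by rw [hY]
  rw [hgoal]
  constructor
  · have h1 : ∑ j ∈ Ico j0 (i ^ 2), Y j ≤ ∑ j ∈ range J, Y j := by
      apply sum_le_sum_of_subset_of_nonneg
      · intro j hj
        rw [mem_Ico] at hj
        rw [mem_range]
        omega
      · intro j _ _; exact hY0 j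
    have h2 := hdec (i ^ 2) (hsq i le_rfl)
    have h3 := (hmean (i ^ 2) (hsq i le_rfl)).1
    have h4 := (abs_lt.1 (key i le_rfl)).1
    push_cast at h3
    have h5 : c / 2 * ((i : ℝ) + 1) ^ 2 ≤ c * ((i : ℝ) ^ 2 - j0) - ε * (i : ℝ) ^ 2 := by
      rw [hε]
      have h6 : 0 ≤ (i : ℝ) ^ 2 / 4 - i - 1 / 2 - j0 := by nlinarith
      nlinarith
    have h7 : c / 2 * (J : ℝ) ≤ c / 2 * ((i : ℝ) + 1) ^ 2 :=
      mul_le_mul_of_nonneg_left hJ2 (by positivity)
    linarith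
  · have h1 : ∑ j ∈ range J, Y j ≤ ∑ j ∈ range ((i + 1) ^ 2), Y j := by
      apply sum_le_sum_of_subset_of_nonneg
      · intro j hj
        rw [mem_range] at hj ⊢
        omega
      · intro j _ _; exact hY0 j
    have h1' : ∑ j ∈ range ((i + 1) ^ 2), Y j = A + ∑ j ∈ Ico j0 ((i + 1) ^ 2), Y j := by
      rw [hA, range_eq_Ico, range_eq_Ico, sum_Ico_consecutive _ (Nat.zero_le _) (hsq _ (Nat.le_succ i))]
    have h2 := hdec ((i + 1) ^ 2) (hsq _ (Nat.le_succ i))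
    have h3 := (hmean ((i + 1) ^ 2) (hsq _ (Nat.le_succ i))).2
    have h4 := (abs_lt.1 (key (i + 1) (Nat.le_succ i))).2
    push_cast at h3 h4
    have h8 : 0 ≤ 3 / 4 * (i : ℝ) ^ 2 - 5 / 2 * i - 5 / 4 - i1 := by nlinarith
    have h9 : ε * ((i : ℝ) + 1) ^ 2 ≤ C / 4 * ((i : ℝ) + 1) ^ 2 := by
      rw [hε]
      have : 0 ≤ ((i : ℝ) + 1) ^ 2 := by positivity
      nlinarith
    have h10 : A + C / 4 * ((i : ℝ) + 1) ^ 2 + C * (((i : ℝ) + 1) ^ 2 - j0) ≤ 2 * C * (i : ℝ) ^ 2 := by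
      nlinarith
    have h11 : 2 * C * (i : ℝ) ^ 2 ≤ 2 * C * J := mul_le_mul_of_nonneg_left hJ1 (by positivity)
    linarith

end Pool.Agent.H94.TO
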